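import Pool.Agent.W477.CN.Defs

/-! CN-STAR: the family Star is closed under unions, intersections, differences, shifts, act. -/

namespace W477.CN.H863

open W477.CN Set

theorem mem_star_iff {X : Type} {𝒜 : Set (Set X)} (h𝒜 : IsAlg 𝒜) (A : Set (X × ℕ)) :
    A ∈ Star 𝒜 ↔ (∃ n, ∀ p ∈ A, p.2 < n) ∧ ∀ m, {x | (x, m) ∈ A} ∈ 𝒜 := by
  constructor
  · rintro ⟨n, f, hf, rfl⟩
    refine ⟨⟨n, fun p hp => hp.1⟩, fun m => ?_⟩
    by_cases hm : m < n
    · have : {x : X | (x, m) ∈ {p : X × ℕ | p.2 < n ∧ p.1 ∈ f p.2}} = f m := by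
        ext x; simp [hm]
      rw [this]; exact hf m hm
    · have : {x : X | (x, m) ∈ {p : X × ℕ | p.2 < n ∧ p.1 ∈ f p.2}} = ∅ := by
        ext x; simp [hm]
      rw [this]; exact h𝒜.empty
  · rintro ⟨⟨n, hn⟩, hs⟩
    refine ⟨n, fun m => {x | (x, m) ∈ A}, fun m _ => hs m, ?_⟩
    ext p
    constructor
    · intro hp; exact ⟨hn p hp, hp⟩
    · rintro ⟨_, hp⟩; exact hp

theorem star_holds : P_star := by
  intro X G _ _ 𝒜 h𝒜 hinv
  refine ⟨?_, ?_, ?_, ?_⟩
  · rw [mem_star_iff h𝒜]
    refine ⟨⟨0, fun p hp => hp.elim⟩, fun m => ?_⟩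
    have : {x : X | (x, m) ∈ (∅ : Set (X × ℕ))} = ∅ := by ext x; simp
    rw [this]; exact h𝒜.empty
  · intro A hA B hB
    rw [mem_star_iff h𝒜] at hA hB
    obtain ⟨⟨n, hn⟩, hsA⟩ := hA
    obtain ⟨⟨k, hk⟩, hsB⟩ := hB
    refine ⟨?_, ?_, ?_⟩
    · rw [mem_star_iff h𝒜]
      refine ⟨⟨max n k, fun p hp => ?_⟩, fun m => ?_⟩
      · rcases hp with hp | hp
        · exact lt_of_lt_of_le (hn p hp) (le_max_left _ _)
        · exact lt_of_lt_of_le (hk p hp) (le_max_right _ _)
      · exact h𝒜.union _ (hsA m) _ (hsB m)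
    · rw [mem_star_iff h𝒜]
      refine ⟨⟨n, fun p hp => hn p hp.1⟩, fun m => ?_⟩
      exact h𝒜.inter _ (hsA m) _ (hsB m)
    · rw [mem_star_iff h𝒜]
      refine ⟨⟨n, fun p hp => hn p hp.1⟩, fun m => ?_⟩
      exact h𝒜.inter _ (hsA m) _ (h𝒜.compl _ (hsB m))
  · intro A hA N
    rw [mem_star_iff h𝒜] at hA ⊢
    obtain ⟨⟨n, hn⟩, hsA⟩ := hA
    refine ⟨⟨n + N, ?_⟩, fun m => ?_⟩
    · rintro p ⟨q, hq, rfl⟩
      have := hn q hq
      show q.2 + N < n + N
      omega
    · by_cases hm : N ≤ m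
      · have : {x : X | (x, m) ∈ shift N A} = {x : X | (x, m - N) ∈ A} := by
          ext x
          constructor
          · rintro ⟨q, hq, he⟩
            have h1 : x = q.1 := congrArg Prod.fst he
            have h2 : m = q.2 + N := congrArg Prod.snd he
            have h3 : m - N = q.2 := by omega
            show (x, m - N) ∈ A
            rw [h3, h1]; exact hq
          · intro hx
            refine ⟨(x, m - N), hx, ?_⟩
            show (x, m) = (x, m - N + N)
            rw [Nat.sub_add_cancel hm]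
        rw [this]; exact hsA _
      · have : {x : X | (x, m) ∈ shift N A} = ∅ := by
          ext x
          constructor
          · rintro ⟨q, hq, he⟩
            have h2 : m = q.2 + N := congrArg Prod.snd he
            omega
          · intro hx; exact hx.elim
        rw [this]; exact h𝒜.empty
  · intro A hA h
    rw [mem_star_iff h𝒜] at hA ⊢
    obtain ⟨⟨n, hn⟩, hsA⟩ := hA
    obtain ⟨g, π⟩ := h
    refine ⟨⟨(Finset.range n).sup (fun i => π i + 1), ?_⟩, fun m => ?_⟩
    · rintro p ⟨q, hq, rfl⟩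
      have h1 := hn q hq
      show π q.2 < _
      have h2 : π q.2 + 1 ≤ (Finset.range n).sup (fun i => π i + 1) :=
        Finset.le_sup (f := fun i => π i + 1) (Finset.mem_range.2 h1)
      omega
    · have : {x : X | (x, m) ∈ act (g, π) '' A}
          = (fun x => g • x) '' {x : X | (x, π.symm m) ∈ A} := by
        ext x
        constructor
        · rintro ⟨q, hq, he⟩
          have h1 : g • q.1 = x := congrArg Prod.fst he
          have h2 : π q.2 = m := congrArg Prod.snd he
          refine ⟨q.1, ?_, h1⟩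
          show (q.1, π.symm m) ∈ A
          rw [← h2, Equiv.symm_apply_apply]; exact hq
        · rintro ⟨y, hy, he⟩
          refine ⟨(y, π.symm m), hy, ?_⟩
          show (g • y, π (π.symm m)) = (x, m)
          rw [Equiv.apply_symm_apply]
          exact Prod.ext he rfl
      rw [this]; exact hinv g _ (hsA _)

end W477.CN.H863
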